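import Mathlib

set_option autoImplicit false

namespace Pool.Agent.MP_abff10_nt

open Finset

theorem tau_pow {k : ℕ} (hk : k ≠ 0) (n : ℕ) : n.divisors.card ^ k ≤ (k ^ k) ^ 2 ^ k * n := by
  rcases eq_or_ne n 0 with rfl | hn
  · simp [hk]
  have h0 : ∀ e : ℕ, (e + 1) ^ k ≤ k ^ k * 2 ^ e := fun e => by
    have h1 : e + 1 ≤ k * (e / k + 1) := Nat.lt_mul_div_succ e (by omega)
    have h2 : e / k + 1 ≤ 2 ^ (e / k) := Nat.lt_two_pow_self
    refine (Nat.pow_le_pow_left (h1.trans (Nat.mul_le_mul_left _ h2)) k).trans ?_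
    rw [mul_pow, ← pow_mul]
    exact Nat.mul_le_mul_left _ (Nat.pow_le_pow_right two_pos (Nat.div_mul_le_self _ _))
  rw [Nat.card_divisors hn, ← prod_pow]
  have h1 : ∀ p ∈ n.primeFactors, (n.factorization p + 1) ^ k
      ≤ (if p < 2 ^ k then k ^ k else 1) * p ^ n.factorization p := by
    intro p hp
    have hp2 : 2 ≤ p := (Nat.prime_of_mem_primeFactors hp).two_le
    split_ifs with h
    · exact (h0 _).trans (Nat.mul_le_mul_left _ (Nat.pow_le_pow_left hp2 _))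
    · have h2 : n.factorization p + 1 ≤ 2 ^ n.factorization p := Nat.lt_two_pow_self
      refine (Nat.pow_le_pow_left h2 k).trans ?_
      rw [← pow_mul, mul_comm, pow_mul, one_mul]
      exact Nat.pow_le_pow_left (by omega) _
  refine (prod_le_prod' h1).trans ?_
  rw [prod_mul_distrib, show ∏ p ∈ n.primeFactors, p ^ n.factorization p = n from
    Nat.prod_factorization_pow_eq_self hn, prod_ite, prod_const_one, mul_one, prod_const]
  refine Nat.mul_le_mul_right _ (Nat.pow_le_pow_right (by positivity) ?_)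
  exact (card_le_card fun p hp => mem_range.2 (mem_filter.1 hp).2).trans (card_range _).le

theorem divisor_bound {η : ℝ} (hη : 0 < η) :
    ∃ C : ℝ, 1 ≤ C ∧ ∀ n : ℕ, 1 ≤ n → (n.divisors.card : ℝ) ≤ C * (n : ℝ) ^ η := by
  obtain ⟨k, hk⟩ := exists_nat_gt (1 / η)
  have hkp : (0 : ℝ) < k := lt_trans (by positivity) hk
  have hk0 : k ≠ 0 := by rintro rfl; simp at hkp
  have hA : (1 : ℝ) ≤ ((k ^ k) ^ 2 ^ k : ℕ) := by
    exact_mod_cast Nat.one_le_iff_ne_zero.2 (by positivity)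
  refine ⟨_, hA, fun n hn => ?_⟩
  have hn1 : (1 : ℝ) ≤ n := by exact_mod_cast hn
  have h1 : (n.divisors.card : ℝ) ^ k ≤ ((k ^ k) ^ 2 ^ k : ℕ) * n := by
    exact_mod_cast tau_pow hk0 n
  refine le_of_pow_le_pow_left₀ hk0 (by positivity) (h1.trans ?_)
  rw [mul_pow]
  refine mul_le_mul (le_self_pow₀ hA hk0) ?_ (by positivity) (by positivity)
  rw [← Real.rpow_natCast, ← Real.rpow_mul (by positivity)]
  refine (Real.rpow_one _).ge.trans (Real.rpow_le_rpow_of_exponent_le hn1 ?_)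
  rw [div_lt_iff₀ hη] at hk; linarith

theorem cop {D N w y : ℤ} (hc : IsCoprime N (2 * D)) (h : y ^ 2 = D * w ^ 2 + N)
    (hw : IsCoprime w y) : IsCoprime N w ∧ IsCoprime N y := by
  have h1 : IsCoprime N w := by
    have := hw.pow_right (n := 2)
    rw [h, show D * w ^ 2 + N = N + w * (D * w) by ring] at this
    exact this.of_add_mul_left_right.symm
  refine ⟨h1, ?_⟩
  have h2 := (hc.of_mul_right_right.mul_right (h1.pow_right (n := 2))).add_mul_left_right 1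
  rw [mul_one, ← h] at h2
  exact (IsCoprime.pow_right_iff two_pos).1 h2

theorem same_class {D N w0 y0 w y w' y' : ℤ} (hN : N ≠ 0) (hc : IsCoprime N (2 * D))
    (h0 : y0 ^ 2 = D * w0 ^ 2 + N) (c0 : IsCoprime w0 y0) (h : y ^ 2 = D * w ^ 2 + N)
    (c : IsCoprime w y) (h' : y' ^ 2 = D * w' ^ 2 + N)
    (he : gcd N (y0 * w - y * w0) = gcd N (y0 * w' - y' * w0)) : N ∣ y * w' - y' * w := by
  obtain ⟨f, hf⟩ := gcd_dvd_left N (y0 * w - y * w0)
  have a1 := gcd_dvd_right N (y0 * w - y * w0)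
  have a2 := he ▸ gcd_dvd_right N (y0 * w' - y' * w0)
  have b1 := dvd_gcd_mul_of_dvd_mul (k := N) (m := y0 * w - y * w0) (n := y0 * w + y * w0)
    ⟨w ^ 2 - w0 ^ 2, by linear_combination w ^ 2 * h0 - w0 ^ 2 * h⟩
  have b2 := dvd_gcd_mul_of_dvd_mul (k := N) (m := y0 * w' - y' * w0) (n := y0 * w' + y' * w0)
    ⟨w' ^ 2 - w0 ^ 2, by linear_combination w' ^ 2 * h0 - w0 ^ 2 * h'⟩
  rw [← he] at b2
  generalize gcd N (y0 * w - y * w0) = e at *
  subst hf
  have e0 := left_ne_zero_of_mul hN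
  rw [mul_dvd_mul_iff_left e0] at b1 b2
  have d1 := ((hc.of_mul_right_left.mul_right (cop hc h0 c0).2).mul_right
    (cop hc h c).1).of_mul_left_left
  obtain ⟨u, hu⟩ := a1
  rw [show 2 * y0 * w = y0 * w + y * w0 + e * u by linear_combination hu] at d1
  have d2 := d1.of_add_mul_left_right.of_isCoprime_of_dvd_right b1
  refine (cop hc h0 c0).1.dvd_of_dvd_mul_left (d2.mul_dvd ?_ ?_)
  · rw [show w0 * (y * w' - y' * w) = w * (y0 * w' - y' * w0) - w' * (e * u) by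
      linear_combination -w' * hu]
    exact dvd_sub (a2.mul_left _) ((dvd_mul_right _ _).mul_left _)
  · rw [show w0 * (y * w' - y' * w) = w' * (y0 * w + y * w0) - w * (y0 * w' + y' * w0) by ring]
    exact dvd_sub (b1.mul_left _) (b2.mul_left _)

theorem gap {D N w y w' y' : ℕ} (hD : 1 ≤ D) (hN : 1 ≤ N) (hw : w < w')
    (h : y ^ 2 = D * w ^ 2 + N) (h' : y' ^ 2 = D * w' ^ 2 + N)
    (hd : (N : ℤ) ∣ y * w' - y' * w) : w ^ 2 * 2 ≤ w' ^ 2 := by
  have h1 : w ≤ y := by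
    by_contra h2
    have : y ^ 2 ≤ w ^ 2 := Nat.pow_le_pow_left (by omega) 2
    nlinarith
  obtain ⟨j, hj⟩ := hd
  zify at *
  have h2 : j * (y * w' + y' * w) = w' ^ 2 - w ^ 2 :=
    mul_left_cancel₀ (a := (N : ℤ)) (by omega) (by
      linear_combination (-(y * w' + y' * w) : ℤ) * hj + (w' : ℤ) ^ 2 * h - (w : ℤ) ^ 2 * h')
  have h3 : (0 : ℤ) ≤ y * w' + y' * w := by positivity
  have h4 : (w : ℤ) * w ≤ y * w' := by gcongr
  have h5 : (0 : ℤ) ≤ y' * w := by positivity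
  have h6 : 1 ≤ j := by
    by_contra h7
    nlinarith
  nlinarith

theorem rep_prim {D N B : ℕ} (hD : 1 ≤ D) (hN : 1 ≤ N) (hc : N.Coprime (2 * D)) (S : Finset ℕ)
    (y : ℕ → ℕ) (hS : ∀ w ∈ S, 1 ≤ w ∧ w ≤ B ∧ y w ^ 2 = D * w ^ 2 + N ∧ w.Coprime (y w)) :
    S.card ≤ N.divisors.card * (Nat.log 2 (B ^ 2) + 1) := by
  rcases S.eq_empty_or_nonempty with rfl | ⟨w0, h0⟩
  · simp
  rw [← card_range (Nat.log 2 (B ^ 2) + 1), ← card_product]
  refine card_le_card_of_injOn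
    (fun w => (Int.gcd N (y w0 * w - y w * w0), Nat.log 2 (w ^ 2))) (fun w hw => ?_) ?_
  · simp only [coe_product, Set.mem_prod, mem_coe, Nat.mem_divisors, mem_range]
    exact ⟨⟨Int.natCast_dvd_natCast.1 (Int.gcd_dvd_left _ _), by omega⟩,
      Nat.lt_succ_of_le (Nat.log_mono_right (Nat.pow_le_pow_left (hS w hw).2.1 2))⟩
  · have key : ∀ w ∈ S, ∀ w' ∈ S, Int.gcd N (y w0 * w - y w * w0) =
        Int.gcd N (y w0 * w' - y w' * w0) → Nat.log 2 (w ^ 2) = Nat.log 2 (w' ^ 2) → ¬ w < w' := by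
      intro w hw w' hw' h1 h2 h3
      have h4 := gap hD hN h3 (hS w hw).2.2.1 (hS w' hw').2.2.1 (same_class (D := D) (w0 := w0)
        (y0 := y w0) (by omega) (by exact_mod_cast Nat.isCoprime_iff_coprime.2 hc)
        (by exact_mod_cast (hS w0 h0).2.2.1) (Nat.isCoprime_iff_coprime.2 (hS w0 h0).2.2.2)
        (by exact_mod_cast (hS w hw).2.2.1) (Nat.isCoprime_iff_coprime.2 (hS w hw).2.2.2)
        (by exact_mod_cast (hS w' hw').2.2.1) (by rw [← Int.coe_gcd, ← Int.coe_gcd, h1]))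
      have h5 := Nat.log_mono_right (b := 2) h4
      rw [Nat.log_mul_base one_lt_two (pow_ne_zero 2 (by have := (hS w hw).1; omega))] at h5
      omega
    intro w hw w' hw' h
    rw [Prod.mk.injEq] at h
    exact le_antisymm (not_lt.1 (key w' hw' w hw h.1.symm h.2.symm)) (not_lt.1 (key w hw w' hw' h.1 h.2))

theorem rep_all {D N B : ℕ} (hD : 1 ≤ D) (hN : 1 ≤ N) (hc : N.Coprime (2 * D)) (S : Finset ℕ)
    (y : ℕ → ℕ) (hS : ∀ w ∈ S, 1 ≤ w ∧ w ≤ B ∧ y w ^ 2 = D * w ^ 2 + N) :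
    S.card ≤ N.divisors.card * (Nat.log 2 (B ^ 2) + 1) * N.divisors.card := by
  have hd : ∀ w ∈ S, w.gcd (y w) ^ 2 ∣ N := fun w hw =>
    (Nat.dvd_add_right ((pow_dvd_pow_of_dvd (Nat.gcd_dvd_left _ _) 2).mul_left D)).1
      ((hS w hw).2.2 ▸ pow_dvd_pow_of_dvd (Nat.gcd_dvd_right _ _) 2)
  refine card_le_mul_card_image_of_maps_to (f := fun w => w.gcd (y w)) (fun w hw =>
    Nat.mem_divisors.2 ⟨(dvd_pow_self _ two_ne_zero).trans (hd w hw), by omega⟩) _ fun h _ => ?_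
  rcases (S.filter fun w => w.gcd (y w) = h).eq_empty_or_nonempty with e | ⟨w0, h0⟩
  · simp [e]
  obtain ⟨h1, h2⟩ := mem_filter.1 h0
  obtain ⟨M, hM⟩ := h2 ▸ hd w0 h1
  have hMN : M ∣ N := hM ▸ dvd_mul_left _ _
  have h3 : 0 < h := h2 ▸ Nat.gcd_pos_of_pos_left _ (hS w0 h1).1
  have h4 := rep_prim (B := B) hD (Nat.pos_of_dvd_of_pos hMN hN) (hc.coprime_dvd_left hMN)
    ((S.filter fun w => w.gcd (y w) = h).image (· / h)) (fun w => y (w * h) / h) fun w hw => by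
      obtain ⟨v, hv, rfl⟩ := mem_image.1 hw
      obtain ⟨hv, e⟩ := mem_filter.1 hv
      obtain ⟨a, b, c, d1, d2⟩ := Nat.exists_coprime v (y v)
      obtain ⟨s1, s2, s3⟩ := hS v hv
      rw [e] at d1 d2
      have e1 : v / h = a := by rw [d1, Nat.mul_div_cancel _ h3]
      rw [e1, ← d1, d2, Nat.mul_div_cancel _ h3]
      refine ⟨by nlinarith, by nlinarith, Nat.eq_of_mul_eq_mul_left (pow_pos h3 2) ?_, c⟩
      rw [d2, hM] at s3
      rw [d1] at s3
      linear_combination s3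
  rw [card_image_of_injOn fun w hw w' hw' e => ?_] at h4
  · exact h4.trans (Nat.mul_le_mul_right _ (card_le_card (Nat.divisors_subset_of_dvd (by omega) hMN)))
  · have a : h ∣ w := (mem_filter.1 hw).2 ▸ Nat.gcd_dvd_left w (y w)
    have b : h ∣ w' := (mem_filter.1 hw').2 ▸ Nat.gcd_dvd_left w' (y w')
    exact (Nat.div_left_inj a b).1 e

/-- Few solutions of an equation of Pell type, uniformly in the coefficients. -/
theorem rep_count {δ : ℝ} (hδ : 0 < δ) : ∃ K : ℝ, 0 < K ∧ ∀ (D N Z j : ℕ) (S : Finset ℕ), 1 ≤ D →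
    1 ≤ N → N.Coprime (2 * D) → N ≤ Z → j ≠ 0 →
    (∀ t ∈ S, 1 ≤ t ∧ t ^ j ≤ Z ∧ ∃ y, y ^ 2 = D * (t ^ j) ^ 2 + N) →
    (S.card : ℝ) ≤ K * (Z : ℝ) ^ δ := by
  obtain ⟨C, hC1, hC⟩ := divisor_bound (η := δ / 4) (by positivity)
  refine ⟨C ^ 3, by positivity, fun D N Z j S hD hN hc hZ hj hS => ?_⟩
  have h0 : ∀ w ∈ S.image (· ^ j), ∃ y, 1 ≤ w ∧ w ≤ Z ∧ y ^ 2 = D * w ^ 2 + N := fun w hw => by
    obtain ⟨t, ht, rfl⟩ := mem_image.1 hw
    obtain ⟨a, b, y, c⟩ := hS t ht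
    exact ⟨y, Nat.one_le_pow _ _ a, b, c⟩
  choose! y hy using h0
  have h1 := rep_all hD hN hc _ y hy
  rw [card_image_of_injective _ (Nat.pow_left_injective hj)] at h1
  have hZ0 : Z ≠ 0 := by omega
  have h2 := (hC N hN).trans (mul_le_mul_of_nonneg_left
    (Real.rpow_le_rpow (by positivity) (Nat.cast_le.2 hZ) (by positivity)) (by positivity))
  have h3 := (hC (2 ^ Nat.log 2 (Z ^ 2)) Nat.one_le_two_pow).trans (mul_le_mul_of_nonneg_left
    (Real.rpow_le_rpow (by positivity) (Nat.cast_le.2 (Nat.pow_log_le_self 2 (pow_ne_zero 2 hZ0)))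
      (by positivity)) (by positivity))
  rw [Nat.divisors_prime_pow Nat.prime_two, card_map, card_range, Nat.cast_pow,
    ← Real.rpow_natCast_mul (by positivity), Real.rpow_natCast_mul (by positivity),
    ← Real.rpow_pow_comm (by positivity)] at h3
  calc (S.card : ℝ) ≤ N.divisors.card * ((Nat.log 2 (Z ^ 2) + 1 : ℕ) : ℝ) * N.divisors.card := by
        exact_mod_cast h1
    _ ≤ (C * Z ^ (δ / 4)) * (C * (Z ^ (δ / 4)) ^ 2) * (C * Z ^ (δ / 4)) := by gcongr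
    _ = C ^ 3 * (Z ^ (δ / 4)) ^ 4 := by ring
    _ = _ := by
      rw [← Real.rpow_mul_natCast (by positivity)]
      congr 2
      push_cast
      ring

end Pool.Agent.MP_abff10_nt
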