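import Mathlib

set_option autoImplicit false

namespace Pool.Agent.MP_abff10_nt

open Polynomial Matrix Finset Filter Topology

theorem vand_fin {E : ℕ} (t : Fin E → ℤ) (g : Fin E → ℤ[X]) (l : ℤ) (h : ∀ i j, l ∣ t i - t j) :
    l ^ E.choose 2 ∣ (Matrix.of fun i c => (g c).eval (t i)).det := by
  rcases Nat.eq_zero_or_pos E with rfl | hE
  · simp
  set M : ℤ[X] := ∏ i, (X - C (t i)) with hM0
  have hM : M.Monic := monic_prod_of_monic _ _ fun i _ => monic_X_sub_C _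
  have hd : M.natDegree = E := by
    rw [natDegree_prod_of_monic _ _ fun i _ => monic_X_sub_C _]
    simp only [natDegree_X_sub_C, sum_const, card_univ, Fintype.card_fin, smul_eq_mul, mul_one]
  have e : (Matrix.of fun i c => (g c).eval (t i)) =
      vandermonde t * Matrix.of fun (k c : Fin E) => (g c %ₘ M).coeff k := by
    ext i c
    have h1 : (g c %ₘ M).natDegree < E :=
      hd ▸ natDegree_modByMonic_lt _ hM fun h => by rw [h, natDegree_one] at hd; omega
    have h2 : M.eval (t i) = 0 := by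
      rw [hM0, eval_prod]
      exact prod_eq_zero (mem_univ i) (by simp)
    rw [of_apply]
    conv_lhs => rw [← modByMonic_add_div (g c) M, eval_add, eval_mul, h2, zero_mul, add_zero,
      eval_eq_sum_range' h1, ← Fin.sum_univ_eq_sum_range fun k => (g c %ₘ M).coeff k * t i ^ k]
    simp [mul_apply, mul_comm]
  rw [e, det_mul, det_vandermonde]
  refine Dvd.dvd.mul_right ?_ _
  have : E.choose 2 = ∑ i : Fin E, (Ioi i).card := by
    simp only [Fin.card_Ioi]
    rw [Fin.sum_univ_eq_sum_range fun i => E - 1 - i, sum_range_reflect (fun i => i),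
      sum_range_id, Nat.choose_two_right]
  rw [this, ← prod_pow_eq_pow_sum]
  refine prod_dvd_prod_of_dvd _ _ fun i _ => ?_
  rw [← prod_const]
  exact prod_dvd_prod_of_dvd _ _ fun j _ => h j i

theorem vand_dvd {ι : Type} [Fintype ι] [DecidableEq ι] (t : ι → ℤ) (g : ι → ℤ[X]) (l : ℤ)
    (h : ∀ i j, l ∣ t i - t j) :
    l ^ (Fintype.card ι).choose 2 ∣ (Matrix.of fun i c => (g c).eval (t i)).det := by
  rw [← det_submatrix_equiv_self (Fintype.equivFin ι).symm]
  exact vand_fin (fun i => t _) (fun i => g _) l fun i j => h _ _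

theorem det_bound {ι : Type} [Fintype ι] [DecidableEq ι] (M : Matrix ι ι ℝ) (β : ι → ℝ)
    (h : ∀ i c, |M i c| ≤ β c) : |M.det| ≤ (Fintype.card ι).factorial * ∏ c, β c := by
  rw [det_apply', ← Fintype.card_perm, ← nsmul_eq_mul]
  refine (abs_sum_le_sum_abs _ _).trans (sum_le_card_nsmul _ _ _ fun σ _ => ?_)
  rw [abs_mul, abs_prod]
  refine (mul_le_of_le_one_left (prod_nonneg fun _ _ => abs_nonneg _) ?_).trans
    (prod_le_prod (fun _ _ => abs_nonneg _) fun c _ => h _ _)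
  rcases Int.units_eq_one_or (Equiv.Perm.sign σ) with h | h <;> simp [h]

theorem lift_poly (a : ℤ) (h : ℤ[X]) (e : ℤ) (K : ℕ) : ∃ μ : ℤ[X], ∀ t m : ℤ,
    m = a * m ^ 2 + h.eval t → 2 ∣ m - e → 2 ^ (K + 1) ∣ m - μ.eval t := by
  induction K with
  | zero => exact ⟨C e, fun t m _ h2 => by simpa using h2⟩
  | succ K ih =>
    obtain ⟨μ, hμ⟩ := ih
    refine ⟨C a * μ ^ 2 + h, fun t m h1 h2 => ?_⟩
    have h3 := hμ t m h1 h2
    have h4 : (2 : ℤ) ∣ m - μ.eval t + 2 * μ.eval t :=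
      dvd_add ((dvd_pow_self 2 K.succ_ne_zero).trans h3) (dvd_mul_right _ _)
    have e1 : m - (C a * μ ^ 2 + h).eval t =
        a * ((m - μ.eval t) * (m - μ.eval t + 2 * μ.eval t)) := by
      simp only [eval_add, eval_mul, eval_C, eval_pow]
      linear_combination h1
    rw [e1, pow_succ]
    exact (mul_dvd_mul h3 h4).mul_left _

theorem exists_rel (S : Finset ℤ) (x y : ℤ → ℤ) {J r : ℕ} {T Y : ℝ}
    (hl : ∀ K, ∃ ξ η : ℤ[X], ∀ t ∈ S, 2 ^ K ∣ x t - ξ.eval t ∧ 2 ^ K ∣ y t - η.eval t)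
    (hc : ∀ t ∈ S, ∀ t' ∈ S, 2 ^ r ∣ t - t')
    (hb : ∀ t ∈ S, |(t : ℝ)| ≤ T ∧ |(x t : ℝ)| ≤ Y ∧ |(y t : ℝ)| ≤ Y)
    (hlt : (4 * J).factorial * ((T ^ J.choose 2) ^ 4 * Y ^ (4 * J)) <
      ((2 : ℝ) ^ r) ^ (4 * J).choose 2) :
    ∃ A : Fin 2 × Fin 2 → ℝ[X], (∀ c, (A c).natDegree ≤ J) ∧ A ≠ 0 ∧ ∀ t ∈ S,
      (A (0, 0)).eval (t : ℝ) + (A (1, 0)).eval (t : ℝ) * x t + (A (0, 1)).eval (t : ℝ) * y t +
        (A (1, 1)).eval (t : ℝ) * (x t * y t) = 0 := by
  let row : S → (Fin 2 × Fin 2) × Fin J → ℝ :=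
    fun t c => ((t.1 ^ (c.2 : ℕ) * x t ^ (c.1.1 : ℕ) * y t ^ (c.1.2 : ℕ) : ℤ) : ℝ)
  have hcard : Fintype.card ((Fin 2 × Fin 2) × Fin J) = 4 * J := by simp
  rcases eq_or_ne (Submodule.span ℝ (Set.range row)) ⊤ with hs | hs
  · exfalso
    obtain ⟨f, h2, -, h3⟩ := Submodule.exists_fun_fin_finrank_span_eq ℝ (Set.range row)
    choose p hp using h2
    let e := Fintype.equivFinOfCardEq (α := (Fin 2 × Fin 2) × Fin J)
      (n := Module.finrank ℝ (Submodule.span ℝ (Set.range row)))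
      (by rw [hs, finrank_top, Module.finrank_fintype_fun_eq_card])
    let M : Matrix ((Fin 2 × Fin 2) × Fin J) ((Fin 2 × Fin 2) × Fin J) ℤ := Matrix.of fun i c =>
      (p (e i)).1 ^ (c.2 : ℕ) * x (p (e i)) ^ (c.1.1 : ℕ) * y (p (e i)) ^ (c.1.2 : ℕ)
    have h4 : ((M.det : ℤ) : ℝ) = (M.map (Int.cast : ℤ → ℝ)).det := Int.cast_det M
    have h5 : (M.map (Int.cast : ℤ → ℝ)).det ≠ 0 := by
      refine ((isUnit_iff_isUnit_det _).1 (linearIndependent_rows_iff_isUnit.1 ?_)).ne_zero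
      convert! h3.comp _ e.injective using 1
      funext i
      exact hp (e i)
    obtain ⟨ξ, η, h6⟩ := hl (r * (4 * J).choose 2)
    have h7 := vand_dvd (fun i => (p (e i)).1) (fun c : (Fin 2 × Fin 2) × Fin J =>
      X ^ (c.2 : ℕ) * ξ ^ (c.1.1 : ℕ) * η ^ (c.1.2 : ℕ)) (2 ^ r) fun i j => hc _ (p _).2 _ (p _).2
    rw [hcard, ← pow_mul] at h7
    have h8 : (2 : ℤ) ^ (r * (4 * J).choose 2) ∣ M.det := by
      have h9 := fun z => ZMod.intCast_zmod_eq_zero_iff_dvd z (2 ^ (r * (4 * J).choose 2))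
      push_cast at h9
      rw [← h9] at h7 ⊢
      rw [← h7, Int.cast_det, Int.cast_det]
      congr 1
      ext i c
      have h10 := h6 _ (p (e i)).2
      simp only [← h9, Int.cast_sub, sub_eq_zero] at h10
      simp [M, h10.1, h10.2]
    have h9 := det_bound (M.map (Int.cast : ℤ → ℝ))
      (fun c => T ^ (c.2 : ℕ) * Y ^ (c.1.1 : ℕ) * Y ^ (c.1.2 : ℕ)) fun i c => by
        obtain ⟨b1, b2, b3⟩ := hb _ (p (e i)).2
        have := (abs_nonneg _).trans b1
        have := (abs_nonneg _).trans b2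
        simp only [M, map_apply, of_apply, Int.cast_mul, Int.cast_pow, abs_mul, abs_pow]
        gcongr
    have h10 : ∏ c : (Fin 2 × Fin 2) × Fin J, T ^ (c.2 : ℕ) * Y ^ (c.1.1 : ℕ) * Y ^ (c.1.2 : ℕ) =
        (T ^ J.choose 2) ^ 4 * Y ^ (4 * J) := by
      have : ∏ i : Fin J, T ^ (i : ℕ) = T ^ J.choose 2 := by
        rw [prod_pow_eq_pow_sum, Fin.sum_univ_eq_sum_range fun i => i, sum_range_id,
          Nat.choose_two_right]
      simp only [Fintype.prod_prod_type, Fin.prod_univ_two, prod_mul_distrib, this, prod_const,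
        card_univ, Fintype.card_fin, Fin.val_zero, Fin.val_one, Fintype.card_prod]
      ring
    rw [hcard, h10, ← h4] at h9
    rw [← h4, Int.cast_ne_zero] at h5
    have h11 : ((2 ^ (r * (4 * J).choose 2) : ℤ) : ℝ) ≤ ((|M.det| : ℤ) : ℝ) :=
      Int.cast_le.2 (Int.le_of_dvd (abs_pos.2 h5) ((dvd_abs _ _).2 h8))
    rw [Int.cast_abs, Int.cast_pow, Int.cast_ofNat, pow_mul] at h11
    exact (h11.trans h9).not_gt hlt
  · obtain ⟨φ, h0, hφ⟩ := Submodule.exists_dual_map_eq_bot_of_lt_top hs.lt_top inferInstance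
    refine ⟨fun c => ∑ i : Fin J, C (φ (Pi.single (c, i) 1)) * X ^ (i : ℕ), fun c =>
      natDegree_sum_le_of_forall_le _ _ fun i _ => (natDegree_C_mul_X_pow_le _ _).trans i.2.le,
      fun h => h0 ((Pi.basisFun ℝ _).ext fun ⟨c, i⟩ => ?_), fun t ht => ?_⟩
    · have := congrArg (fun p => coeff p i) (congrFun h c)
      simpa [coeff_C_mul, coeff_X_pow, Fin.val_inj] using this
    · have h1 : φ (row ⟨t, ht⟩) = 0 := (Submodule.eq_bot_iff _).1 hφ _
        (Submodule.mem_map_of_mem (Submodule.subset_span ⟨_, rfl⟩))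
      rw [pi_eq_sum_univ' (row ⟨t, ht⟩), map_sum] at h1
      rw [← h1]
      simp only [Fintype.sum_prod_type, Fin.sum_univ_two, map_smul, smul_eq_mul, row,
        eval_finsetSum, eval_mul, eval_C, eval_pow, eval_X, sum_mul, ← sum_add_distrib]
      refine sum_congr rfl fun i _ => ?_
      push_cast
      simp only [Fin.val_zero, Fin.val_one]
      ring

theorem ns {f U V : ℝ[X]} (hf : ∃ τ, f.eval τ < 0) (h : U ^ 2 = f * V ^ 2) : V = 0 := by
  obtain ⟨τ, hτ⟩ := hf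
  refine eq_zero_of_infinite_isRoot _ (infinite_of_mem_nhds τ
    ((f.continuous.continuousAt.eventually_lt continuousAt_const hτ).mono fun s hs => ?_))
  have := congrArg (eval s) h
  simp only [eval_pow, eval_mul] at this
  exact pow_eq_zero_iff two_ne_zero |>.1 (le_antisymm (by nlinarith [sq_nonneg (U.eval s)])
    (sq_nonneg _))

theorem norm_ne {f g A B C D : ℝ[X]} (hf : ∃ τ, f.eval τ < 0) (hg : ∃ τ, g.eval τ < 0)
    (hfg : ∃ τ, (f * g).eval τ < 0)
    (h : (A ^ 2 + B ^ 2 * f - g * C ^ 2 - g * f * D ^ 2) ^ 2 = f * (2 * (A * B - g * C * D)) ^ 2) :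
    A = 0 ∧ B = 0 ∧ C = 0 ∧ D = 0 := by
  have h2 : (2 : ℝ[X]) ≠ 0 := two_ne_zero
  have f0 : f ≠ 0 := by
    rintro rfl
    simp at hf
  have hV := ns hf h
  rw [hV, zero_pow two_ne_zero, mul_zero, pow_eq_zero_iff two_ne_zero] at h
  have h3 : (A ^ 2 - f * B ^ 2 - g * (C ^ 2 - f * D ^ 2)) *
      (A ^ 2 - f * B ^ 2 + g * (C ^ 2 - f * D ^ 2)) = 0 := by
    linear_combination (A ^ 2 + B ^ 2 * f + g * C ^ 2 + g * f * D ^ 2) * h -
      2 * f * (A * B + g * C * D) * hV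
  rcases mul_eq_zero.1 h3 with h4 | h4
  · have h5 : A ^ 2 = g * C ^ 2 := mul_left_cancel₀ h2 (by linear_combination h + h4)
    have h6 : B ^ 2 = g * D ^ 2 :=
      mul_left_cancel₀ (mul_ne_zero h2 f0) (by linear_combination h - h4)
    have h7 := ns hg h5
    have h8 := ns hg h6
    simp_all
  · have h5 : A ^ 2 = f * g * D ^ 2 := mul_left_cancel₀ h2 (by linear_combination h + h4)
    have h6 : (f * B) ^ 2 = f * g * C ^ 2 :=
      mul_left_cancel₀ h2 (by linear_combination f * (h - h4))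
    have h7 := ns hfg h5
    have h8 := ns hfg h6
    simp_all

theorem class_card (S : Finset ℤ) (x y : ℤ → ℤ) {J : ℕ} {f g : ℝ[X]} (hf : ∃ τ, f.eval τ < 0)
    (hg : ∃ τ, g.eval τ < 0) (hfg : ∃ τ, (f * g).eval τ < 0) (df : f.natDegree ≤ 3)
    (dg : g.natDegree ≤ 3)
    (hxy : ∀ t ∈ S, (x t : ℝ) ^ 2 = f.eval (t : ℝ) ∧ (y t : ℝ) ^ 2 = g.eval (t : ℝ))
    (A : Fin 2 × Fin 2 → ℝ[X]) (hd : ∀ c, (A c).natDegree ≤ J) (h0 : A ≠ 0) (h : ∀ t ∈ S,
      (A (0, 0)).eval (t : ℝ) + (A (1, 0)).eval (t : ℝ) * x t + (A (0, 1)).eval (t : ℝ) * y t +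
        (A (1, 1)).eval (t : ℝ) * (x t * y t) = 0) : S.card ≤ 4 * J + 12 := by
  by_contra hn
  have h1 := eq_zero_of_natDegree_lt_card_of_eval_eq_zero'
    ((A (0, 0) ^ 2 + A (1, 0) ^ 2 * f - g * A (0, 1) ^ 2 - g * f * A (1, 1) ^ 2) ^ 2 -
      f * (2 * (A (0, 0) * A (1, 0) - g * A (0, 1) * A (1, 1))) ^ 2) (S.image Int.cast) ?_ ?_
  · obtain ⟨a, b, c, d⟩ := norm_ne hf hg hfg (sub_eq_zero.1 h1)
    refine h0 (funext fun ⟨i, j⟩ => ?_)
    fin_cases i <;> fin_cases j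
    exacts [a, c, b, d]
  · intro s hs
    obtain ⟨t, ht, rfl⟩ := mem_image.1 hs
    have h2 := h t ht
    simp only [eval_sub, eval_add, eval_mul, eval_pow, eval_ofNat, ← (hxy t ht).1, ← (hxy t ht).2]
    generalize (A (0, 0)).eval (t : ℝ) = a at h2 ⊢
    generalize (A (1, 0)).eval (t : ℝ) = b at h2 ⊢
    generalize (A (0, 1)).eval (t : ℝ) = c at h2 ⊢
    generalize (A (1, 1)).eval (t : ℝ) = d at h2 ⊢
    generalize (x t : ℝ) = u at h2 ⊢
    generalize (y t : ℝ) = v at h2 ⊢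
    linear_combination (a + b * u - c * v - d * u * v) *
      ((a - b * u) ^ 2 - v ^ 2 * (c - d * u) ^ 2) * h2
  · rw [card_image_of_injective _ Int.cast_injective]
    refine lt_of_le_of_lt ?_ (not_le.1 hn)
    have a := hd (0, 0)
    have b := hd (1, 0)
    have c := hd (0, 1)
    have d := hd (1, 1)
    compute_degree
    omega

/-- The determinant method at the prime two for a cover of degree four of the line. -/
theorem det_count {δ : ℝ} (hδ : 0 < δ) : ∃ K : ℝ, 0 < K ∧ ∀ (h k : ℤ[X]) (T Y : ℝ) (S : Finset ℤ),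
    h.natDegree ≤ 3 → k.natDegree ≤ 3 → (∃ τ : ℝ, 4 * aeval τ h + 1 < 0) →
    (∃ τ : ℝ, 12 * aeval τ k + 1 < 0) → (∃ τ : ℝ, (4 * aeval τ h + 1) * (12 * aeval τ k + 1) < 0) →
    1 ≤ T → 1 ≤ Y → (∀ t ∈ S, |(t : ℝ)| ≤ T ∧ ∃ m n : ℤ, m ^ 2 + m = h.eval t ∧
      3 * n ^ 2 - n = k.eval t ∧ |((2 * m + 1 : ℤ) : ℝ)| ≤ Y ∧ |((6 * n - 1 : ℤ) : ℝ)| ≤ Y) →
    (S.card : ℝ) ≤ K * T ^ (1 / 4 : ℝ) * Y ^ δ := by
  obtain ⟨J, hJ⟩ := exists_nat_ge (2 / δ + 1)
  have hJ1 : (1 : ℝ) ≤ J := le_trans (le_add_of_nonneg_left (by positivity)) hJ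
  refine ⟨(4 * J + 12) * 8 * (4 * J) ^ δ, by positivity,
    fun h k T Y S dh dk nh nk nhk hT hY hS => ?_⟩
  choose! hT' m n hm hn hx hy using hS
  have hW : 1 ≤ 4 * J * Y := by nlinarith
  have hl : 1 ≤ T ^ (1 / 4 : ℝ) * (4 * J * Y) ^ δ :=
    one_le_mul_of_one_le_of_one_le (Real.one_le_rpow hT (by norm_num)) (Real.one_le_rpow hW hδ.le)
  obtain ⟨r, hr1, hr2⟩ := exists_nat_pow_near hl one_lt_two
  have hlt : (4 * J).factorial * ((T ^ J.choose 2) ^ 4 * Y ^ (4 * J)) <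
      ((2 : ℝ) ^ (r + 1)) ^ (4 * J).choose 2 := by
    have e : (((4 * J).choose 2 : ℕ) : ℝ) = 4 * J * (4 * J - 1) / 2 := by
      rw [Nat.cast_choose_two]
      push_cast
      rfl
    refine lt_of_le_of_lt ?_ (pow_lt_pow_left₀ hr2 (by positivity) (by
      rw [← Nat.cast_ne_zero (R := ℝ), e]
      exact ne_of_gt (by nlinarith)))
    have h1 : ((4 * J).factorial : ℝ) ≤ (4 * J) ^ (4 * J) := by
      exact_mod_cast Nat.factorial_le_pow _
    have h2 : (T ^ J.choose 2) ^ 4 ≤ (T ^ (1 / 4 : ℝ)) ^ (4 * J).choose 2 := by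
      rw [← pow_mul, ← Real.rpow_natCast, ← Real.rpow_natCast, ← Real.rpow_mul (by positivity)]
      refine Real.rpow_le_rpow_of_exponent_le hT ?_
      rw [e, Nat.cast_mul, Nat.cast_choose_two]
      push_cast
      nlinarith
    have h3 : (4 * J * Y) ^ (4 * J) ≤ ((4 * J * Y) ^ δ) ^ (4 * J).choose 2 := by
      rw [← Real.rpow_natCast, ← Real.rpow_natCast, ← Real.rpow_mul (by positivity)]
      refine Real.rpow_le_rpow_of_exponent_le hW ?_
      rw [e]
      push_cast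
      have : 2 ≤ (J - 1) * δ := (div_le_iff₀ hδ).1 (by linarith)
      nlinarith
    rw [mul_pow]
    rw [mul_pow] at h3
    calc _ ≤ (T ^ J.choose 2) ^ 4 * ((4 * J) ^ (4 * J) * Y ^ (4 * J)) := by
          rw [mul_left_comm]
          gcongr
      _ ≤ _ := by gcongr
  have h1 := card_le_mul_card_image_of_maps_to (s := S)
    (f := fun t => (t % 2 ^ (r + 1), m t % 2, n t % 2))
    (t := Ico 0 (2 ^ (r + 1)) ×ˢ Ico 0 2 ×ˢ Ico 0 2) (fun t _ => by
      simp only [mem_product, mem_Ico]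
      exact ⟨⟨Int.emod_nonneg _ (by positivity), Int.emod_lt_of_pos _ (by positivity)⟩,
        by omega, by omega⟩) (4 * J + 12) fun c _ => by
      obtain ⟨A, a1, a2, a3⟩ := exists_rel (S.filter fun t =>
          (t % 2 ^ (r + 1), m t % 2, n t % 2) = c) (fun t => 2 * m t + 1) (fun t => 6 * n t - 1)
        (fun K => by
          obtain ⟨μ, hμ⟩ := lift_poly (-1) h c.2.1 K
          obtain ⟨ν, hν⟩ := lift_poly 3 (-k) c.2.2 K
          refine ⟨2 * μ + 1, 6 * ν - 1, fun t ht => ?_⟩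
          obtain ⟨ht', rfl⟩ := mem_filter.1 ht
          have b1 := hμ t (m t) (by linear_combination hm t ht') (by simp only; omega)
          have b2 := hν t (n t) (by rw [eval_neg]; linear_combination -hn t ht')
            (by simp only; omega)
          have b3 : (2 : ℤ) ^ K ∣ 2 ^ (K + 1) := pow_dvd_pow _ K.le_succ
          constructor
          · convert! (b3.trans b1).mul_left 2 using 1
            simp only [eval_add, eval_mul, eval_ofNat, eval_one]
            ring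
          · convert! (b3.trans b2).mul_left 6 using 1
            simp only [eval_sub, eval_mul, eval_ofNat, eval_one]
            ring)
        (fun t ht t' ht' => Int.ModEq.dvd
          (congrArg Prod.fst ((mem_filter.1 ht').2.trans (mem_filter.1 ht).2.symm)))
        (fun t ht => ⟨hT' t (mem_filter.1 ht).1, hx t (mem_filter.1 ht).1,
          hy t (mem_filter.1 ht).1⟩) hlt
      refine class_card _ _ _ (f := 4 * h.map (algebraMap ℤ ℝ) + 1)
        (g := 12 * k.map (algebraMap ℤ ℝ) + 1) (by simpa [-algebraMap_int_eq] using nh)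
        (by simpa [-algebraMap_int_eq] using nk) (by simpa [-algebraMap_int_eq] using nhk) ?_ ?_ (fun t ht => ?_) A a1 a2 a3
      · compute_degree
        exact natDegree_map_le.trans dh
      · compute_degree
        exact natDegree_map_le.trans dk
      · have b1 := congrArg (Int.cast : ℤ → ℝ) (hm t (mem_filter.1 ht).1)
        have b2 := congrArg (Int.cast : ℤ → ℝ) (hn t (mem_filter.1 ht).1)
        simp only [eval_add, eval_mul, eval_ofNat, eval_one, algebraMap_int_eq, eval_intCast_map,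
          eq_intCast, Int.cast_id, ← b1, ← b2]
        push_cast
        constructor <;> ring
  simp only [card_product, Int.card_Ico, sub_zero] at h1
  have h2 : (S.card : ℝ) ≤ (4 * J + 12) * (2 ^ (r + 1) * 4) := by
    have : ((2 : ℤ) ^ (r + 1)).toNat = 2 ^ (r + 1) := by
      rw [← Int.natCast_inj, Int.toNat_of_nonneg (by positivity)]
      simp
    rw [this] at h1
    exact_mod_cast h1
  rw [Real.mul_rpow (by positivity) (by positivity)] at hr1
  calc _ ≤ _ := h2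
    _ = (4 * J + 12) * 8 * 2 ^ r := by ring
    _ ≤ (4 * J + 12) * 8 * (T ^ (1 / 4 : ℝ) * ((4 * J) ^ δ * Y ^ δ)) := by gcongr
    _ = _ := by ring

end Pool.Agent.MP_abff10_nt
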