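import Pool.Agent.MP_abff10_nt.Det
import Pool.Agent.MP_abff10_nt.Rep

set_option autoImplicit false

namespace Pool.Agent.MP_abff10_nt

open Finset Polynomial

theorem param (s : ℕ) : ∀ P Q : ℕ, s ≠ 0 → P * Q = s ^ 4 → ∃ d e g p q : ℕ,
    P = d ^ 3 * e * g ^ 2 * p ^ 4 ∧ Q = d * e ^ 3 * g ^ 2 * q ^ 4 ∧ s = d * e * g * p * q := by
  induction s using induction_on_primes with
  | zero => exact fun _ _ h => absurd rfl h
  | one =>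
    intro P Q _ h
    exact ⟨1, 1, 1, 1, 1, Nat.eq_one_of_mul_eq_one_right h, Nat.eq_one_of_mul_eq_one_left h, rfl⟩
  | prime_mul r s hr ih =>
    intro P Q h0 h
    have hd : r ^ 4 ∣ P * Q := ⟨s ^ 4, by rw [h, mul_pow]⟩
    obtain ⟨y, z, ⟨P, rfl⟩, ⟨Q, rfl⟩, h1⟩ := Nat.dvd_mul.1 hd
    obtain ⟨i, hi, rfl⟩ := (Nat.dvd_prime_pow hr).1 ⟨z, h1.symm⟩
    obtain rfl : z = r ^ (4 - i) := Nat.eq_of_mul_eq_mul_left (pow_pos hr.pos i) (by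
      rw [h1, ← pow_add, Nat.add_sub_cancel' hi])
    obtain ⟨d, e, g, p, q, rfl, rfl, rfl⟩ := ih P Q (right_ne_zero_of_mul h0)
      (Nat.eq_of_mul_eq_mul_left (pow_pos hr.pos 4) (by rw [← mul_pow, ← h, ← h1]; ring))
    interval_cases i
    · exact ⟨d, e, g, p, r * q, by ring, by ring, by ring⟩
    · exact ⟨d, r * e, g, p, q, by ring, by ring, by ring⟩
    · exact ⟨d, e, r * g, p, q, by ring, by ring, by ring⟩
    · exact ⟨r * d, e, g, p, q, by ring, by ring, by ring⟩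
    · exact ⟨d, e, g, r * p, q, by ring, by ring, by ring⟩

theorem fib (V : Finset (Fin 5 → ℕ)) (i : Fin 5) (M : ℕ) {H : ℝ} (hH : 0 ≤ H)
    (hV : ∀ u ∈ V, ∀ j, u j ∈ Icc 1 M) (h : ∀ u ∈ V, ∀ S : Finset ℕ,
      (∀ t ∈ S, Function.update u i t ∈ V) → S.card * ∏ j, (u (i.succAbove j) : ℝ) ≤ H) :
    (V.card : ℝ) ≤ H * (1 + Real.log M) ^ 4 := by
  rw [card_eq_sum_card_fiberwise (f := fun u => i.removeNth u)
    (t := Fintype.piFinset fun _ => Icc 1 M) fun u hu =>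
      mem_coe.2 (Fintype.mem_piFinset.2 fun j => hV u hu _), Nat.cast_sum]
  have h1 : ∑ x ∈ Icc 1 M, (x : ℝ)⁻¹ ≤ 1 + Real.log M := by
    simpa [harmonic_eq_sum_Icc] using harmonic_le_one_add_log M
  calc _ ≤ ∑ v ∈ Fintype.piFinset fun _ : Fin 4 => Icc 1 M, H * ∏ j, (v j : ℝ)⁻¹ := by
        refine sum_le_sum fun v _ => ?_
        rcases (V.filter fun u => i.removeNth u = v).eq_empty_or_nonempty with e | ⟨u, hu0⟩
        · rw [e, card_empty, Nat.cast_zero]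
          positivity
        obtain ⟨hu, hv⟩ := mem_filter.1 hu0
        clear hu0
        subst hv
        have e : ∀ u' ∈ V.filter fun u' => i.removeNth u' = i.removeNth u,
            Function.update u i (u' i) = u' := fun u' hu' => by
          rw [← Fin.insertNth_removeNth, ← (mem_filter.1 hu').2, Fin.insertNth_self_removeNth]
        have h2 := h u hu ((V.filter fun u' => i.removeNth u' = i.removeNth u).image (· i))
          fun t ht => by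
            obtain ⟨u', hu', rfl⟩ := mem_image.1 ht
            rw [e u' hu']
            exact (mem_filter.1 hu').1
        rw [card_image_of_injOn fun a ha b hb hab => by
          rw [← e a ha, ← e b hb]
          exact congrArg _ hab] at h2
        rw [prod_inv_distrib, ← div_eq_mul_inv, le_div_iff₀ (prod_pos fun j _ =>
          Nat.cast_pos.2 (mem_Icc.1 (hV u hu _)).1)]
        exact h2
    _ = H * ∏ _j : Fin 4, ∑ x ∈ Icc 1 M, (x : ℝ)⁻¹ := by rw [← mul_sum, prod_univ_sum]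
    _ ≤ _ := by
        rw [prod_const, card_univ, Fintype.card_fin]
        gcongr

/-- the parameters of a solution -/
structure Good (C : ℕ) (u : Fin 5 → ℕ) : Prop where
  pos : ∀ i, 1 ≤ u i
  le : (∏ i, u i) ^ 2 ≤ C
  sum : u 0 * u 1 ^ 3 * u 2 ^ 2 * u 4 ^ 4 + u 0 ^ 3 * u 1 * u 2 ^ 2 * u 3 ^ 4 ≤ 2 * C
  sq : ∃ m n : ℤ,
    m ^ 2 + m = u 0 * u 1 ^ 3 * u 2 ^ 2 * u 4 ^ 4 - u 0 ^ 3 * u 1 * u 2 ^ 2 * u 3 ^ 4 ∧
    3 * n ^ 2 - n = u 0 * u 1 ^ 3 * u 2 ^ 2 * u 4 ^ 4 + u 0 ^ 3 * u 1 * u 2 ^ 2 * u 3 ^ 4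

variable {C : ℕ} {u : Fin 5 → ℕ}

theorem Good.pos' (h : Good C u) : 0 < u 0 ∧ 0 < u 1 ∧ 0 < u 2 ∧ 0 < u 3 ∧ 0 < u 4 :=
  ⟨h.pos 0, h.pos 1, h.pos 2, h.pos 3, h.pos 4⟩

theorem Good.sq_le (h : Good C u) (i : Fin 5) : u i ^ 2 ≤ C :=
  (Nat.pow_le_pow_left (single_le_prod' (fun j _ => h.pos j) (mem_univ i)) 2).trans h.le

theorem Good.mem (h : Good C u) (i : Fin 5) : u i ∈ Icc 1 C :=
  mem_Icc.2 ⟨h.pos i, (Nat.le_self_pow two_ne_zero _).trans (h.sq_le i)⟩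

theorem Good.pell (h : Good C u) : ∃ y : ℕ, y ^ 2 =
    12 * (u 0 * u 1 ^ 3 * u 2 ^ 2 * u 4 ^ 4 + u 0 ^ 3 * u 1 * u 2 ^ 2 * u 3 ^ 4) + 1 := by
  obtain ⟨m, n, -, h2⟩ := h.sq
  refine ⟨(6 * n - 1).natAbs, ?_⟩
  zify
  rw [sq_abs]
  linear_combination 12 * h2

theorem Good.sq' (h : Good C u) : ∃ m n : ℤ,
    m ^ 2 + m = u 0 * u 1 ^ 3 * u 2 ^ 2 * u 4 ^ 4 - u 0 ^ 3 * u 1 * u 2 ^ 2 * u 3 ^ 4 ∧
    3 * n ^ 2 - n = u 0 * u 1 ^ 3 * u 2 ^ 2 * u 4 ^ 4 + u 0 ^ 3 * u 1 * u 2 ^ 2 * u 3 ^ 4 ∧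
    |((2 * m + 1 : ℤ) : ℝ)| ≤ (25 * C : ℕ) ∧ |((6 * n - 1 : ℤ) : ℝ)| ≤ (25 * C : ℕ) := by
  obtain ⟨m, n, h1, h2⟩ := h.sq
  have h3 := h.sum
  have h4 := (h.pos 0).trans (mem_Icc.1 (h.mem 0)).2
  zify at h3 h4
  have h5 : (0 : ℤ) ≤ u 0 ^ 3 * u 1 * u 2 ^ 2 * u 3 ^ 4 := by positivity
  refine ⟨m, n, h1, h2, ?_, ?_⟩ <;> rw [← Int.cast_abs, ← Int.cast_natCast, Int.cast_le] <;>
    refine abs_le_of_sq_le_sq ?_ (by positivity) <;> push_cast <;> nlinarith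

theorem Good.rest (h : Good C u) (i : Fin 5) {a b : ℕ} (hab : a + b = 17)
    (hi : (∏ j, u j) ^ a ≤ u i ^ 17) : (∏ j, (u (i.succAbove j) : ℝ)) ^ 34 ≤ C ^ b := by
  have h1 : (∏ j, u (i.succAbove j)) ^ 17 ≤ (∏ j, u j) ^ b := by
    refine Nat.le_of_mul_le_mul_left ?_ (pow_pos (prod_pos (s := univ) fun j _ => h.pos j) a)
    rw [← pow_add, hab]
    conv_rhs => rw [Fin.prod_univ_succAbove _ i, mul_pow]
    exact Nat.mul_le_mul_right _ hi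
  have h2 := (Nat.pow_le_pow_left h1 2).trans
    ((pow_right_comm _ _ _).trans_le (Nat.pow_le_pow_left h.le b))
  rw [← pow_mul] at h2
  exact_mod_cast h2

theorem case_pell {δ K : ℝ} (hK0 : 0 < K) (hK : ∀ (D N Z j : ℕ) (S : Finset ℕ), 1 ≤ D →
      1 ≤ N → N.Coprime (2 * D) → N ≤ Z → j ≠ 0 →
      (∀ t ∈ S, 1 ≤ t ∧ t ^ j ≤ Z ∧ ∃ y, y ^ 2 = D * (t ^ j) ^ 2 + N) →
      (S.card : ℝ) ≤ K * (Z : ℝ) ^ δ) (V : Finset (Fin 5 → ℕ)) (i : Fin 5)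
    (hV : ∀ u ∈ V, Good C u ∧ (∏ j, u j) ^ 3 ≤ u i ^ 17)
    (h : ∀ u, Good C u → ∃ D N j, 1 ≤ D ∧ 1 ≤ N ∧ N.Coprime (2 * D) ∧ N ≤ 25 * C ∧ j ≠ 0 ∧ j ≤ 2 ∧
      ∀ t, Good C (Function.update u i t) → ∃ y, y ^ 2 = D * (t ^ j) ^ 2 + N) :
    (V.card : ℝ) ≤ K * ((25 * C : ℕ) : ℝ) ^ δ * C ^ (7 / 17 : ℝ) * (1 + Real.log C) ^ 4 := by
  refine fib V i C (by positivity) (fun u hu => (hV u hu).1.mem) fun u hu S hS => ?_
  obtain ⟨D, N, j, h1, h2, h3, h4, h5, h6, h7⟩ := h u (hV u hu).1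
  refine mul_le_mul (hK D N _ j S h1 h2 h3 h4 h5 fun t ht => ?_) ?_ (by positivity) (by positivity)
  · have a := (hV _ (hS t ht)).1.pos i
    have b := (hV _ (hS t ht)).1.sq_le i
    rw [Function.update_self] at a b
    exact ⟨a, (Nat.pow_le_pow_right a h6).trans (by omega), h7 t (hV _ (hS t ht)).1⟩
  · refine le_of_pow_le_pow_left₀ (n := 34) (by norm_num) (by positivity)
      (((hV u hu).1.rest i (b := 14) rfl (hV u hu).2).trans_eq ?_)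
    rw [← Real.rpow_mul_natCast (by positivity), ← Real.rpow_natCast]
    norm_num

theorem case_det {δ K : ℝ} (hK0 : 0 < K) (hK : ∀ (h k : ℤ[X]) (T Y : ℝ) (S : Finset ℤ),
      h.natDegree ≤ 3 → k.natDegree ≤ 3 → (∃ τ : ℝ, 4 * aeval τ h + 1 < 0) →
      (∃ τ : ℝ, 12 * aeval τ k + 1 < 0) →
      (∃ τ : ℝ, (4 * aeval τ h + 1) * (12 * aeval τ k + 1) < 0) →
      1 ≤ T → 1 ≤ Y → (∀ t ∈ S, |(t : ℝ)| ≤ T ∧ ∃ m n : ℤ, m ^ 2 + m = h.eval t ∧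
        3 * n ^ 2 - n = k.eval t ∧ |((2 * m + 1 : ℤ) : ℝ)| ≤ Y ∧ |((6 * n - 1 : ℤ) : ℝ)| ≤ Y) →
      (S.card : ℝ) ≤ K * T ^ (1 / 4 : ℝ) * Y ^ δ) (V : Finset (Fin 5 → ℕ)) (i : Fin 5)
    (hV : ∀ u ∈ V, Good C u ∧ (∏ j, u j) ^ 4 ≤ u i ^ 17)
    (h : ∀ u, Good C u → ∃ h k : ℤ[X], h.natDegree ≤ 3 ∧ k.natDegree ≤ 3 ∧
      (∃ τ : ℝ, 4 * aeval τ h + 1 < 0) ∧ (∃ τ : ℝ, 12 * aeval τ k + 1 < 0) ∧
      (∃ τ : ℝ, (4 * aeval τ h + 1) * (12 * aeval τ k + 1) < 0) ∧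
      ∀ t : ℕ, Good C (Function.update u i t) → ∃ m n : ℤ, m ^ 2 + m = h.eval (t : ℤ) ∧
        3 * n ^ 2 - n = k.eval (t : ℤ) ∧ |((2 * m + 1 : ℤ) : ℝ)| ≤ (25 * C : ℕ) ∧
        |((6 * n - 1 : ℤ) : ℝ)| ≤ (25 * C : ℕ)) :
    (V.card : ℝ) ≤ K * ((25 * C : ℕ) : ℝ) ^ δ * C ^ (7 / 17 : ℝ) * (1 + Real.log C) ^ 4 := by
  refine fib V i C (by positivity) (fun u hu => (hV u hu).1.mem) fun u hu S hS => ?_
  obtain ⟨f, k, h1, h2, h3, h4, h5, h6⟩ := h u (hV u hu).1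
  have h7 := (hV u hu).1.rest i (b := 13) rfl (hV u hu).2
  have h8 : 0 < ∏ j, (u (i.succAbove j) : ℝ) :=
    prod_pos fun j _ => Nat.cast_pos.2 ((hV u hu).1.pos _)
  have h9 : ∀ t, Good C (Function.update u i t) →
      (t : ℝ) ≤ √C / ∏ j, (u (i.succAbove j) : ℝ) := fun t ht => by
    have := ht.le
    rw [Fin.prod_univ_succAbove _ i] at this
    simp only [Function.update_self, Function.update_of_ne (Fin.succAbove_ne i _)] at this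
    rw [le_div_iff₀ h8]
    refine Real.le_sqrt_of_sq_le ?_
    exact_mod_cast this
  have hC := ((hV u hu).1.pos 0).trans (mem_Icc.1 ((hV u hu).1.mem 0)).2
  have h10 := hK f k (√C / ∏ j, (u (i.succAbove j) : ℝ)) (25 * C : ℕ) (S.image Nat.cast)
    h1 h2 h3 h4 h5 (le_trans (by exact_mod_cast (hV u hu).1.pos i)
      (h9 (u i) (by simpa using (hV u hu).1))) (by exact_mod_cast (by omega)) fun t ht => by
      obtain ⟨t', ht', rfl⟩ := mem_image.1 ht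
      exact ⟨by simpa using h9 t' (hV _ (hS t' ht')).1, h6 t' (hV _ (hS t' ht')).1⟩
  rw [card_image_of_injective _ Nat.cast_injective] at h10
  generalize ∏ j, (u (i.succAbove j) : ℝ) = w at h7 h8 h10
  have h11 : (√C / w) ^ (1 / 4 : ℝ) * w ≤ C ^ (7 / 17 : ℝ) := by
    refine le_of_pow_le_pow_left₀ (n := 136) (by norm_num) (by positivity) ?_
    rw [mul_pow, ← Real.rpow_mul_natCast (by positivity), ← Real.rpow_mul_natCast (by positivity),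
      show (1 / 4 * (136 : ℕ) : ℝ) = (34 : ℕ) by norm_num,
      show (7 / 17 * (136 : ℕ) : ℝ) = (56 : ℕ) by norm_num, Real.rpow_natCast, Real.rpow_natCast]
    calc (√C / w) ^ 34 * w ^ 136 = (√C ^ 2) ^ 17 * (w ^ 34) ^ 3 := by field_simp
      _ ≤ (C : ℝ) ^ 17 * (C ^ 13) ^ 3 := by
        rw [Real.sq_sqrt (by positivity)]
        gcongr
      _ = _ := by ring
  calc _ ≤ K * (√C / w) ^ (1 / 4 : ℝ) * ((25 * C : ℕ) : ℝ) ^ δ * w := by gcongr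
    _ = K * ((25 * C : ℕ) : ℝ) ^ δ * ((√C / w) ^ (1 / 4 : ℝ) * w) := by ring
    _ ≤ _ := by gcongr

theorem neg_pt {a b : ℝ} (ha : 1 ≤ a) (hb : 1 ≤ b) : 4 * (b * (b + 1) - a * (b + 1) ^ 3) + 1 < 0 := by
  have h1 : (b + 1) ^ 3 ≤ a * (b + 1) ^ 3 := le_mul_of_one_le_left (by positivity) ha
  nlinarith [pow_pos (by positivity : 0 < b) 3]

theorem count_good {ε : ℝ} (hε : 0 < ε) : ∃ K : ℝ, ∀ (C : ℕ) (V : Finset (Fin 5 → ℕ)),
    (∀ u ∈ V, Good C u) → (V.card : ℝ) ≤ K * (C : ℝ) ^ (7 / 17 + ε) := by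
  have hδ : 0 < ε / 5 := by positivity
  obtain ⟨K, hK0, hK⟩ := rep_count hδ
  obtain ⟨L, hL0, hL⟩ := det_count hδ
  refine ⟨(3 * K + 2 * L) * 25 ^ (ε / 5) * (1 + 5 / ε) ^ 4, fun C V hV => ?_⟩
  rcases V.eq_empty_or_nonempty with rfl | ⟨u0, h0⟩
  · rw [card_empty, Nat.cast_zero]
    positivity
  have hC : (1 : ℝ) ≤ C := by
    exact_mod_cast ((hV u0 h0).pos 0).trans (mem_Icc.1 ((hV u0 h0).mem 0)).2
  have c0 := case_det hL0 hL (V.filter fun u => (∏ j, u j) ^ 4 ≤ u 0 ^ 17) 0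
    (fun u hu => ⟨hV u (mem_filter.1 hu).1, (mem_filter.1 hu).2⟩) fun u hu => by
      obtain ⟨p0, p1, p2, p3, p4⟩ := hu.pos'
      have ha : (1 : ℝ) ≤ u 1 * u 2 ^ 2 * u 3 ^ 4 := by
        exact_mod_cast Nat.one_le_iff_ne_zero.2 (by positivity)
      have hb : (1 : ℝ) ≤ u 1 ^ 3 * u 2 ^ 2 * u 4 ^ 4 := by
        exact_mod_cast Nat.one_le_iff_ne_zero.2 (by positivity)
      refine ⟨Polynomial.C (u 1 ^ 3 * u 2 ^ 2 * u 4 ^ 4 : ℤ) * X -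
        Polynomial.C (u 1 * u 2 ^ 2 * u 3 ^ 4 : ℤ) * X ^ 3,
        Polynomial.C (u 1 ^ 3 * u 2 ^ 2 * u 4 ^ 4 : ℤ) * X +
        Polynomial.C (u 1 * u 2 ^ 2 * u 3 ^ 4 : ℤ) * X ^ 3, by compute_degree, by compute_degree,
        ⟨_, by simpa using neg_pt ha hb⟩, ⟨-1, by simp; linarith⟩,
        ⟨_, mul_neg_of_neg_of_pos (by simpa using neg_pt ha hb) (by simp; positivity)⟩,
        fun t ht => ?_⟩
      obtain ⟨m, n, a, b, c⟩ := ht.sq'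
      refine ⟨m, n, a.trans ?_, b.trans ?_, c⟩ <;> simp <;> ring
  have c1 := case_det hL0 hL (V.filter fun u => (∏ j, u j) ^ 4 ≤ u 1 ^ 17) 1
    (fun u hu => ⟨hV u (mem_filter.1 hu).1, (mem_filter.1 hu).2⟩) fun u hu => by
      obtain ⟨p0, p1, p2, p3, p4⟩ := hu.pos'
      have ha : (1 : ℝ) ≤ u 0 * u 2 ^ 2 * u 4 ^ 4 := by
        exact_mod_cast Nat.one_le_iff_ne_zero.2 (by positivity)
      have hb : (1 : ℝ) ≤ u 0 ^ 3 * u 2 ^ 2 * u 3 ^ 4 := by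
        exact_mod_cast Nat.one_le_iff_ne_zero.2 (by positivity)
      refine ⟨Polynomial.C (u 0 * u 2 ^ 2 * u 4 ^ 4 : ℤ) * X ^ 3 -
        Polynomial.C (u 0 ^ 3 * u 2 ^ 2 * u 3 ^ 4 : ℤ) * X,
        Polynomial.C (u 0 * u 2 ^ 2 * u 4 ^ 4 : ℤ) * X ^ 3 +
        Polynomial.C (u 0 ^ 3 * u 2 ^ 2 * u 3 ^ 4 : ℤ) * X, by compute_degree, by compute_degree,
        ⟨-((u 0 : ℝ) ^ 3 * u 2 ^ 2 * u 3 ^ 4 + 1), ?_⟩, ⟨-1, ?_⟩,
        ⟨-(6 * ((u 0 : ℝ) * u 2 ^ 2 * u 4 ^ 4))⁻¹ ^ ((3 : ℕ)⁻¹ : ℝ), ?_⟩, fun t ht => ?_⟩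
      rotate_right
      · obtain ⟨m, n, a, b, c⟩ := ht.sq'
        refine ⟨m, n, a.trans ?_, b.trans ?_, c⟩ <;> simp <;> ring
      all_goals
        simp only [map_sub, map_add, map_mul, map_pow, aeval_X, map_natCast]
        generalize (u 0 : ℝ) * u 2 ^ 2 * u 4 ^ 4 = a at ha ⊢
        generalize (u 0 : ℝ) ^ 3 * u 2 ^ 2 * u 3 ^ 4 = b at hb ⊢
      · linarith [neg_pt ha hb]
      · linarith
      · have e := Real.rpow_inv_natCast_pow (x := (6 * a)⁻¹) (by positivity) three_ne_zero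
        have e0 := Real.rpow_nonneg (x := (6 * a)⁻¹) (by positivity) ((3 : ℕ)⁻¹ : ℝ)
        generalize (6 * a)⁻¹ ^ ((3 : ℕ)⁻¹ : ℝ) = τ at e e0 ⊢
        have e1 : a * τ ^ 3 = 1 / 6 := by
          rw [e]
          field_simp
        have e2 : 0 ≤ b * τ := by positivity
        exact mul_neg_of_pos_of_neg (by linarith) (by linarith)
  have c2 := case_pell hK0 hK (V.filter fun u => (∏ j, u j) ^ 3 ≤ u 2 ^ 17) 2
    (fun u hu => ⟨hV u (mem_filter.1 hu).1, (mem_filter.1 hu).2⟩) fun u hu => by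
      obtain ⟨p0, p1, p2, p3, p4⟩ := hu.pos'
      refine ⟨12 * (u 0 * u 1 ^ 3 * u 4 ^ 4 + u 0 ^ 3 * u 1 * u 3 ^ 4), 1, 1,
        Nat.one_le_iff_ne_zero.2 (by positivity), le_rfl, Nat.coprime_one_left _,
        by exact_mod_cast (by push_cast; linarith : ((1 : ℕ) : ℝ) ≤ (25 * C : ℕ)), one_ne_zero,
        one_le_two, fun t ht => ht.pell.imp fun y hy => hy.trans ?_⟩
      simp
      ring
  have c3 := case_pell hK0 hK (V.filter fun u => (∏ j, u j) ^ 3 ≤ u 3 ^ 17) 3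
    (fun u hu => ⟨hV u (mem_filter.1 hu).1, (mem_filter.1 hu).2⟩) fun u hu => by
      obtain ⟨p0, p1, p2, p3, p4⟩ := hu.pos'
      have h1 := hu.sum
      have h2 : 1 ≤ C := by exact_mod_cast hC
      refine ⟨12 * (u 0 ^ 3 * u 1 * u 2 ^ 2), 12 * (u 0 * u 1 ^ 3 * u 2 ^ 2 * u 4 ^ 4) + 1, 2,
        Nat.one_le_iff_ne_zero.2 (by positivity), by omega,
        ((Nat.coprime_self_add_left.2 (Nat.coprime_one_left _)).pow_right 3).coprime_dvd_right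
          ⟨72 * u 1 ^ 8 * u 2 ^ 4 * u 4 ^ 12, by ring⟩, by omega, two_ne_zero, le_rfl,
        fun t ht => ht.pell.imp fun y hy => hy.trans ?_⟩
      simp
      ring
  have c4 := case_pell hK0 hK (V.filter fun u => (∏ j, u j) ^ 3 ≤ u 4 ^ 17) 4
    (fun u hu => ⟨hV u (mem_filter.1 hu).1, (mem_filter.1 hu).2⟩) fun u hu => by
      obtain ⟨p0, p1, p2, p3, p4⟩ := hu.pos'
      have h1 := hu.sum
      have h2 : 1 ≤ C := by exact_mod_cast hC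
      refine ⟨12 * (u 0 * u 1 ^ 3 * u 2 ^ 2), 12 * (u 0 ^ 3 * u 1 * u 2 ^ 2 * u 3 ^ 4) + 1, 2,
        Nat.one_le_iff_ne_zero.2 (by positivity), by omega,
        ((Nat.coprime_self_add_left.2 (Nat.coprime_one_left _)).pow_right 3).coprime_dvd_right
          ⟨72 * u 0 ^ 8 * u 2 ^ 4 * u 3 ^ 12, by ring⟩, by omega, two_ne_zero, le_rfl,
        fun t ht => ht.pell.imp fun y hy => hy.trans ?_⟩
      simp
      ring
  have h1 : V ⊆ (V.filter fun u => (∏ j, u j) ^ 4 ≤ u 0 ^ 17) ∪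
      (V.filter fun u => (∏ j, u j) ^ 4 ≤ u 1 ^ 17) ∪ (V.filter fun u => (∏ j, u j) ^ 3 ≤ u 2 ^ 17) ∪
      (V.filter fun u => (∏ j, u j) ^ 3 ≤ u 3 ^ 17) ∪
      (V.filter fun u => (∏ j, u j) ^ 3 ≤ u 4 ^ 17) := fun u hu => by
    by_contra h
    simp only [mem_union, mem_filter, hu, true_and, not_or, not_le] at h
    obtain ⟨⟨⟨⟨a, b⟩, c⟩, d⟩, e⟩ := h
    have := Nat.mul_lt_mul'' (Nat.mul_lt_mul'' (Nat.mul_lt_mul'' (Nat.mul_lt_mul'' a b) c) d) e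
    refine this.ne ?_
    rw [Fin.prod_univ_five]
    ring
  have h2 := (card_le_card h1).trans ((card_union_le _ _).trans (Nat.add_le_add_right
    ((card_union_le _ _).trans (Nat.add_le_add_right ((card_union_le _ _).trans
      (Nat.add_le_add_right (card_union_le _ _) _)) _)) _))
  have h3 := (Nat.cast_le (α := ℝ)).2 h2
  simp only [Nat.cast_add] at h3
  have h4 : 1 + Real.log C ≤ (1 + 5 / ε) * C ^ (ε / 5) := by
    have a := Real.log_le_rpow_div (by positivity : (0 : ℝ) ≤ C) hδ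
    have b := Real.one_le_rpow hC hδ.le
    rw [add_mul, one_mul, show 5 / ε * (C : ℝ) ^ (ε / 5) = C ^ (ε / 5) / (ε / 5) by field_simp]
    linarith
  have h5 := Real.log_nonneg hC
  calc _ ≤ (3 * K + 2 * L) * ((25 * C : ℕ) : ℝ) ^ (ε / 5) * C ^ (7 / 17 : ℝ) *
        (1 + Real.log C) ^ 4 := by linarith
    _ ≤ (3 * K + 2 * L) * ((25 * C : ℕ) : ℝ) ^ (ε / 5) * C ^ (7 / 17 : ℝ) *
        ((1 + 5 / ε) * C ^ (ε / 5)) ^ 4 := by gcongr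
    _ = _ := by
      rw [show 7 / 17 + ε = 7 / 17 + ε / 5 * (5 : ℕ) by push_cast; ring,
        Real.rpow_add (by positivity), Real.rpow_mul_natCast (by positivity), Nat.cast_mul,
        Real.mul_rpow (by positivity) (by positivity)]
      push_cast
      ring

theorem main {ε : ℝ} (hε : 0 < ε) : ∃ K : ℝ, ∀ (C : ℕ) (A : Finset (ℕ × ℕ × ℕ)),
    (∀ a b c, (a, b, c) ∈ A → a ^ 2 + b ^ 2 = c ^ 2 ∧ (∃ m : ℕ, 1 ≤ m ∧ 2 * a = m * (m + 1)) ∧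
      (∃ s : ℕ, 1 ≤ s ∧ b = s ^ 2) ∧ (∃ n : ℤ, n ≠ 0 ∧ 2 * (c : ℤ) = n * (3 * n - 1)) ∧ c ≤ C) →
    (A.card : ℝ) ≤ K * (C : ℝ) ^ (7 / 17 + ε) := by
  obtain ⟨K, hK⟩ := count_good hε
  refine ⟨K, fun C A hA => ?_⟩
  have h : ∀ σ ∈ A, ∃ u, Good C u ∧ σ.2.1 = (∏ i, u i) ^ 2 ∧
      σ.2.2 = u 0 ^ 3 * u 1 * u 2 ^ 2 * u 3 ^ 4 + σ.1 ∧
      σ.2.2 + σ.1 = u 0 * u 1 ^ 3 * u 2 ^ 2 * u 4 ^ 4 := by
    rintro ⟨a, b, c⟩ hσ
    obtain ⟨h1, ⟨m, -, hm⟩, ⟨s, hs, rfl⟩, ⟨n, -, hn⟩, hc⟩ := hA a b c hσ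
    obtain ⟨P, rfl⟩ := Nat.exists_eq_add_of_le' (show a ≤ c by nlinarith)
    obtain ⟨d, e, g, p, q, hP, hQ, rfl⟩ := param s P (P + a + a) (by omega) (by linarith)
    have h2 : ∏ i, ![d, e, g, p, q] i = d * e * g * p * q := by simp [Fin.prod_univ_five]
    refine ⟨![d, e, g, p, q], ⟨fun i => Nat.pos_of_dvd_of_pos (h2 ▸ dvd_prod_of_mem _ (mem_univ i)) hs,
      h2 ▸ le_trans (by nlinarith) hc, ?_, m, n, ?_, ?_⟩, by rw [h2], congrArg (· + a) hP, hQ⟩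
    · change d * e ^ 3 * g ^ 2 * q ^ 4 + d ^ 3 * e * g ^ 2 * p ^ 4 ≤ _
      omega
    all_goals
      zify at hP hQ hm
      push_cast at hn
      simp only [Matrix.cons_val]
    · linear_combination hQ - hP - hm
    · linear_combination hQ + hP - hn
  choose! u hu using h
  rw [← card_image_of_injOn (f := u) fun σ hσ τ hτ e => ?_]
  · refine hK C _ fun v hv => ?_
    obtain ⟨σ, hσ, rfl⟩ := mem_image.1 hv
    exact (hu σ hσ).1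
  · obtain ⟨-, a1, a2, a3⟩ := hu σ hσ
    obtain ⟨-, b1, b2, b3⟩ := hu τ hτ
    rw [e] at a1 a2 a3
    exact Prod.ext (by omega) (Prod.ext (by omega) (by omega))

end Pool.Agent.MP_abff10_nt
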